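import Pool.Agent.H85.LK.Targets

set_option autoImplicit false

namespace Pool.Agent.H54.LK

open Pool.Agent.H85.LK MeasureTheory ProbabilityTheory

private theorem pi3 (f1 f2 : ℝ → ℝ) (a b : ℝ) (m1 : Measurable f1) (m2 : Measurable f2)
    (M : ℝ) (b1 : ∀ x, |f1 x| ≤ M) (b2 : ∀ x, |f2 x| ≤ M) :
    ∫ x : Fin 3 → ℝ, f1 (a * x 0 + b * x 1) * f2 (a * x 0 + b * x 2)
      ∂(Measure.pi (fun _ => gaussianReal 0 1)) =
    ∫ g, (∫ h, f1 (a * g + b * h) ∂(gaussianReal 0 1)) *
      (∫ h, f2 (a * g + b * h) ∂(gaussianReal 0 1)) ∂(gaussianReal 0 1) := by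
  have hM : 0 ≤ M := le_trans (abs_nonneg _) (b1 0)
  have h1 := measurePreserving_piFinSuccAbove (n := 2) (α := fun _ => ℝ)
    (fun _ => gaussianReal 0 1) 0
  have h2 : MeasurePreserving (Prod.map (id : ℝ → ℝ) (MeasurableEquiv.finTwoArrow (α := ℝ)))
      ((gaussianReal 0 1).prod (Measure.pi fun _ : Fin 2 => gaussianReal 0 1))
      ((gaussianReal 0 1).prod ((gaussianReal 0 1).prod (gaussianReal 0 1))) :=
    (MeasurePreserving.id _).prod (measurePreserving_finTwoArrow (gaussianReal 0 1))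
  have hmeas : Measurable (fun p : ℝ × (ℝ × ℝ) => f1 (a * p.1 + b * p.2.1) *
      f2 (a * p.1 + b * p.2.2)) := by
    apply Measurable.mul
    · exact m1.comp (by fun_prop)
    · exact m2.comp (by fun_prop)
  have e1 : ∫ x : Fin 3 → ℝ, f1 (a * x 0 + b * x 1) * f2 (a * x 0 + b * x 2)
      ∂(Measure.pi (fun _ => gaussianReal 0 1)) =
      ∫ p : ℝ × (ℝ × ℝ), f1 (a * p.1 + b * p.2.1) * f2 (a * p.1 + b * p.2.2)
        ∂((gaussianReal 0 1).prod ((gaussianReal 0 1).prod (gaussianReal 0 1))) := by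
    have h3 := h2.comp h1
    rw [← h3.map_eq, integral_map h3.measurable.aemeasurable hmeas.aestronglyMeasurable]
    rfl
  rw [e1, integral_prod]
  · apply integral_congr_ae
    filter_upwards with g
    exact integral_prod_mul (fun h => f1 (a * g + b * h)) (fun h => f2 (a * g + b * h))
  · apply Integrable.of_bound hmeas.aestronglyMeasurable (M * M)
    filter_upwards with p
    rw [norm_mul]
    exact mul_le_mul (b1 _) (b2 _) (norm_nonneg _) hM

private theorem master (hGV : T_GV) (κ : ℝ) (h0 : 0 ≤ κ) (h1 : κ ≤ 1) (f1 f2 : ℝ → ℝ)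
    (m1 : Measurable f1) (m2 : Measurable f2)
    (M : ℝ) (b1 : ∀ x, |f1 x| ≤ M) (b2 : ∀ x, |f2 x| ≤ M) :
    ∫ p : ℝ × ℝ, f1 p.1 * f2 (κ * p.1 + Real.sqrt (1 - κ ^ 2) * p.2)
      ∂((gaussianReal 0 1).prod (gaussianReal 0 1)) =
    ∫ g, (∫ h, f1 (Real.sqrt κ * g + Real.sqrt (1 - κ) * h) ∂(gaussianReal 0 1)) *
      (∫ h, f2 (Real.sqrt κ * g + Real.sqrt (1 - κ) * h) ∂(gaussianReal 0 1))
        ∂(gaussianReal 0 1) := by
  have ha : Real.sqrt κ ^ 2 = κ := Real.sq_sqrt h0
  have hb : Real.sqrt (1 - κ) ^ 2 = 1 - κ := Real.sq_sqrt (by linarith)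
  set a := Real.sqrt κ with hadef
  set b := Real.sqrt (1 - κ) with hbdef
  let u : E 3 := WithLp.toLp 2 ![a, b, 0]
  let u' : E 3 := WithLp.toLp 2 ![a, 0, b]
  have hu : ‖u‖ = 1 := by
    rw [EuclideanSpace.norm_eq, Fin.sum_univ_three]
    simp only [u, Matrix.cons_val_zero, Matrix.cons_val_one, Matrix.cons_val, Real.norm_eq_abs,
      sq_abs, ha, hb]
    norm_num
  have hu' : ‖u'‖ = 1 := by
    rw [EuclideanSpace.norm_eq, Fin.sum_univ_three]
    simp only [u', Matrix.cons_val_zero, Matrix.cons_val_one, Matrix.cons_val, Real.norm_eq_abs,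
      sq_abs, ha, hb]
    norm_num
  have hin : (inner ℝ u u' : ℝ) = κ := by
    rw [PiLp.inner_apply, Fin.sum_univ_three]
    simp only [u, u', Matrix.cons_val_zero, Matrix.cons_val_one, Matrix.cons_val]
    simp
    nlinarith
  have hi1 : ∀ x : Fin 3 → ℝ, (inner ℝ (WithLp.toLp 2 x : E 3) u : ℝ) = a * x 0 + b * x 1 := by
    intro x
    rw [PiLp.inner_apply, Fin.sum_univ_three]
    simp only [u, Matrix.cons_val_zero, Matrix.cons_val_one, Matrix.cons_val]
    simp
  have hi2 : ∀ x : Fin 3 → ℝ, (inner ℝ (WithLp.toLp 2 x : E 3) u' : ℝ) = a * x 0 + b * x 2 := by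
    intro x
    rw [PiLp.inner_apply, Fin.sum_univ_three]
    simp only [u', Matrix.cons_val_zero, Matrix.cons_val_one, Matrix.cons_val]
    simp
  have hmap := hGV 3 u u' hu hu'
  rw [hin] at hmap
  have hmeas : Measurable (fun q : ℝ × ℝ => f1 q.1 * f2 q.2) :=
    (m1.comp measurable_fst).mul (m2.comp measurable_snd)
  have e1 : ∫ p : ℝ × ℝ, f1 p.1 * f2 (κ * p.1 + Real.sqrt (1 - κ ^ 2) * p.2)
      ∂((gaussianReal 0 1).prod (gaussianReal 0 1)) =
      ∫ q : ℝ × ℝ, f1 q.1 * f2 q.2 ∂(((gaussianReal 0 1).prod (gaussianReal 0 1)).map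
        (fun p : ℝ × ℝ => (p.1, κ * p.1 + Real.sqrt (1 - κ ^ 2) * p.2))) := by
    rw [integral_map (by fun_prop) hmeas.aestronglyMeasurable]
  have e2 : ∫ q : ℝ × ℝ, f1 q.1 * f2 q.2 ∂((stdGaussian (E 3)).map
      (fun c => ((inner ℝ c u : ℝ), (inner ℝ c u' : ℝ)))) =
      ∫ c, f1 (inner ℝ c u) * f2 (inner ℝ c u') ∂(stdGaussian (E 3)) := by
    rw [integral_map (by fun_prop) hmeas.aestronglyMeasurable]
  have e3 : ∫ c, f1 (inner ℝ c u) * f2 (inner ℝ c u') ∂(stdGaussian (E 3)) =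
      ∫ x : Fin 3 → ℝ, f1 (a * x 0 + b * x 1) * f2 (a * x 0 + b * x 2)
      ∂(Measure.pi (fun _ => gaussianReal 0 1)) := by
    rw [← map_pi_eq_stdGaussian, integral_map]
    · simp_rw [hi1, hi2]
    · fun_prop
    · apply Measurable.aestronglyMeasurable
      apply Measurable.mul
      · exact m1.comp (by fun_prop)
      · exact m2.comp (by fun_prop)
  rw [e1, ← hmap, e2, e3]
  exact pi3 f1 f2 a b m1 m2 M b1 b2

theorem pf_COV : T_GV → T_CH → T_CHP → T_COV := by
  intro hGV hCH hCHP b l κ hb hl hMD hκ1 hκ2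
  obtain ⟨mχ, md, hnn, -, ⟨M0, hM0⟩, hftc⟩ := hCHP b l hb hl
  have hD0 : 0 ≤ DD b l := integral_nonneg (fun z => sq_nonneg _)
  rcases lt_or_ge κ 0 with hneg | hpos
  · have hR : 0 ≤ ∫ p : ℝ × ℝ, chi b l p.1 * chi b l (κ * p.1 + Real.sqrt (1 - κ ^ 2) * p.2)
      ∂((gaussianReal 0 1).prod (gaussianReal 0 1)) :=
      integral_nonneg (fun p => mul_nonneg (hnn _) (hnn _))
    nlinarith
  · have hM : 0 ≤ M0 := le_trans (hnn 0) (hM0 0).1
    have bχ : ∀ x, |chi b l x| ≤ M0 := fun x => by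
      rw [abs_of_nonneg (hnn x)]
      exact (hM0 x).1
    have bd : ∀ x, |dchi b l x| ≤ M0 := fun x => (hM0 x).2
    set C : ℝ := max M0 (max (M0 ^ 2) 1) with hC
    have c1 : M0 ≤ C := le_max_left _ _
    have c2 : M0 ^ 2 ≤ C := le_trans (le_max_left _ _) (le_max_right _ _)
    have c3 : 1 ≤ C := le_trans (le_max_right _ _) (le_max_right _ _)
    have bχ2 : ∀ x, |chi b l x ^ 2| ≤ C := fun x => by
      rw [abs_pow]
      exact le_trans (pow_le_pow_left₀ (abs_nonneg _) (bχ x) 2) c2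
    have bd2 : ∀ x, |dchi b l x ^ 2| ≤ C := fun x => by
      rw [abs_pow]
      exact le_trans (pow_le_pow_left₀ (abs_nonneg _) (bd x) 2) c2
    have b1 : ∀ x : ℝ, |(fun _ : ℝ => (1 : ℝ)) x| ≤ C := fun x => by
      rw [abs_one]
      exact c3
    have hmain := master hGV κ hpos hκ2 (chi b l) (chi b l) mχ mχ M0 bχ bχ
    have hsq := master hGV κ hpos hκ2 (fun z => chi b l z ^ 2) (fun _ => 1)
      (mχ.pow_const 2) measurable_const C bχ2 b1
    have hsd := master hGV κ hpos hκ2 (fun z => dchi b l z ^ 2) (fun _ => 1)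
      (md.pow_const 2) measurable_const C bd2 b1
    have hfst : ∀ f : ℝ → ℝ, ∫ p : ℝ × ℝ, f p.1 * 1
        ∂((gaussianReal 0 1).prod (gaussianReal 0 1)) = ∫ z, f z ∂(gaussianReal 0 1) := by
      intro f
      have := integral_prod_mul (μ := gaussianReal 0 1) (ν := gaussianReal 0 1) f
        (fun _ : ℝ => (1 : ℝ))
      rw [this]
      simp
    rw [hfst (fun z => chi b l z ^ 2)] at hsq
    rw [hfst (fun z => dchi b l z ^ 2)] at hsd
    simp only [integral_const, probReal_univ, smul_eq_mul, mul_one] at hsq hsd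
    rw [hmain]
    have hMeq : M2 b l = ∫ z, chi b l z ^ 2 ∂(gaussianReal 0 1) := rfl
    have hDeq : DD b l = ∫ z, dchi b l z ^ 2 ∂(gaussianReal 0 1) := rfl
    rw [hMeq, hDeq, hsq, hsd]
    set α := Real.sqrt κ with hα
    set β := Real.sqrt (1 - κ) with hβ
    have hb2 : β ^ 2 = 1 - κ := Real.sq_sqrt (by linarith)
    -- pointwise Poincare inequality
    have hpt : ∀ g : ℝ, (∫ h, chi b l (α * g + β * h) ^ 2 ∂(gaussianReal 0 1)) -
        (∫ h, dchi b l (α * g + β * h) ^ 2 ∂(gaussianReal 0 1)) * (1 - κ) ≤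
        (∫ h, chi b l (α * g + β * h) ∂(gaussianReal 0 1)) *
        (∫ h, chi b l (α * g + β * h) ∂(gaussianReal 0 1)) := by
      intro g
      have h := hCH (fun z => chi b l (α * g + β * z)) (fun z => β * dchi b l (α * g + β * z))
        (mχ.comp (by fun_prop)) ((md.comp (by fun_prop)).const_mul β)
        ⟨|β| * M0, fun z => by
          rw [abs_mul]
          exact mul_le_mul_of_nonneg_left (bd _) (abs_nonneg _)⟩
        (fun z z' => by
          rw [hftc, intervalIntegral.integral_const_mul]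
          exact (intervalIntegral.mul_integral_comp_add_mul (f := dchi b l) β (α * g)).symm)
      simp only [mul_pow, integral_const_mul] at h
      rw [hb2] at h
      linarith
    have hmF : ∀ (f : ℝ → ℝ), Measurable f → ∀ K : ℝ, (∀ x, |f x| ≤ K) →
        AEStronglyMeasurable (fun g => ∫ h, f (α * g + β * h) ∂(gaussianReal 0 1))
          (gaussianReal 0 1) ∧ ∀ g, ‖∫ h, f (α * g + β * h) ∂(gaussianReal 0 1)‖ ≤ K := by
      intro f mf K hK
      constructor
      · have hm : Measurable (fun p : ℝ × ℝ => f (α * p.1 + β * p.2)) := mf.comp (by fun_prop)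
        exact (hm.stronglyMeasurable.integral_prod_right').aestronglyMeasurable
      · intro g
        have := norm_integral_le_of_norm_le_const (μ := gaussianReal 0 1)
          (f := fun h => f (α * g + β * h)) (C := K)
          (Filter.Eventually.of_forall (fun h => hK _))
        simpa using this
    obtain ⟨a1, a2⟩ := hmF (fun z => chi b l z ^ 2) (mχ.pow_const 2) C bχ2
    obtain ⟨a3, a4⟩ := hmF (fun z => dchi b l z ^ 2) (md.pow_const 2) C bd2
    obtain ⟨a5, a6⟩ := hmF (chi b l) mχ M0 bχ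
    have i1 : Integrable (fun g => ∫ h, chi b l (α * g + β * h) ^ 2 ∂(gaussianReal 0 1))
        (gaussianReal 0 1) := Integrable.of_bound a1 C (Filter.Eventually.of_forall a2)
    have i2 : Integrable (fun g => ∫ h, dchi b l (α * g + β * h) ^ 2 ∂(gaussianReal 0 1))
        (gaussianReal 0 1) := Integrable.of_bound a3 C (Filter.Eventually.of_forall a4)
    have i3 : Integrable (fun g => (∫ h, chi b l (α * g + β * h) ∂(gaussianReal 0 1)) *
        (∫ h, chi b l (α * g + β * h) ∂(gaussianReal 0 1))) (gaussianReal 0 1) := by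
      apply Integrable.of_bound (a5.mul a5) (M0 * M0)
      filter_upwards with g
      rw [Pi.mul_apply, norm_mul]
      exact mul_le_mul (a6 g) (a6 g) (norm_nonneg _) hM
    rw [← integral_mul_const, ← integral_sub i1 (i2.mul_const _)]
    exact integral_mono (i1.sub (i2.mul_const _)) i3 hpt

end Pool.Agent.H54.LK
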